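import Mathlib

set_option autoImplicit false

namespace Pool.Agent.Results.MP_63f2bb_co.Heawood

abbrev V : Type := ZMod 7 × Bool

def qr (a : ZMod 7) : Bool := a = 1 ∨ a = 2 ∨ a = 4

def G : SimpleGraph V where
  Adj p q := (p.2 = true ∧ q.2 = false ∧ qr (q.1 - p.1) = true) ∨
    (p.2 = false ∧ q.2 = true ∧ qr (p.1 - q.1) = true)
  symm := ⟨by decide⟩
  loopless := ⟨by decide⟩

instance : DecidableRel G.Adj := fun p q => by unfold G; infer_instance

def act (m b : ZMod 7) (p : V) : V := (m * p.1 + b, if qr m then p.2 else !p.2)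

lemma act_mul : ∀ m m' b b' : ZMod 7, m ≠ 0 → m' ≠ 0 → ∀ p,
    act m b (act m' b' p) = act (m * m') (m * b' + b) p := by decide +kernel

lemma act_inv : ∀ m b : ZMod 7, m ≠ 0 → ∀ p, act (m ^ 5) (-(m ^ 5 * b)) (act m b p) = p ∧
    act m b (act (m ^ 5) (-(m ^ 5 * b)) p) = p := by decide +kernel

lemma ne5 : ∀ m : ZMod 7, m ≠ 0 → m ^ 5 ≠ 0 := by decide

lemma nemul : ∀ m m' : ZMod 7, m ≠ 0 → m' ≠ 0 → m * m' ≠ 0 := by decide

def perm (m b : ZMod 7) (h : m ≠ 0) : Equiv.Perm V :=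
  ⟨act m b, act (m ^ 5) (-(m ^ 5 * b)), fun p => (act_inv m b h p).1, fun p => (act_inv m b h p).2⟩

def Sig : Subgroup (Equiv.Perm V) where
  carrier := {σ | ∃ m b : ZMod 7, m ≠ 0 ∧ ∀ p, σ p = act m b p}
  one_mem' := ⟨1, 0, by decide, by decide⟩
  mul_mem' := by
    rintro σ τ ⟨m, b, hm, h⟩ ⟨m', b', hm', h'⟩
    exact ⟨m * m', m * b' + b, nemul _ _ hm hm', fun p => by
      rw [Equiv.Perm.mul_apply, h', h, act_mul _ _ _ _ hm hm']⟩
  inv_mem' := by
    rintro σ ⟨m, b, hm, h⟩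
    refine ⟨m ^ 5, -(m ^ 5 * b), ne5 m hm, fun p => ?_⟩
    rw [Equiv.Perm.inv_eq_iff_eq, h, (act_inv m b hm p).2]

lemma perm_mem (m b : ZMod 7) (h : m ≠ 0) : perm m b h ∈ Sig := ⟨m, b, h, fun _ => rfl⟩

lemma act_adj : ∀ m b : ZMod 7, m ≠ 0 → ∀ p q, G.Adj (act m b p) (act m b q) ↔ G.Adj p q := by
  decide +kernel

lemma arc : ∀ p q : V, G.Adj p q → ∃ m b : ZMod 7, m ≠ 0 ∧ act m b (0, true) = p ∧
    act m b (1, false) = q := by decide +kernel

def W : Submodule ℝ (V → ℝ) where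
  carrier := {x | (∀ a, x (a, true) = x (a, false)) ∧
    x (0, true) + x (1, true) + x (2, true) + x (3, true) + x (4, true) + x (5, true) +
      x (6, true) = 0}
  zero_mem' := by simp
  add_mem' := by
    rintro x y ⟨h1, h2⟩ ⟨h3, h4⟩
    refine ⟨fun a => by simp [h1, h3], ?_⟩
    simp only [Pi.add_apply]; linarith
  smul_mem' := by
    rintro c x ⟨h1, h2⟩
    refine ⟨fun a => by simp [h1], ?_⟩
    simp only [Pi.smul_apply, smul_eq_mul]; linear_combination c * h2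

lemma W_iff (x : V → ℝ) : x ∈ W ↔ (∀ a s, x (a, s) = x (a, true)) ∧ ∑ a, x (a, true) = 0 := by
  have e : ∑ a : ZMod 7, x (a, true) = x (0, true) + x (1, true) + x (2, true) + x (3, true) +
      x (4, true) + x (5, true) + x (6, true) := Fin.sum_univ_seven (fun a : Fin 7 => x (a, true))
  rw [e]
  constructor
  · rintro ⟨h1, h2⟩
    exact ⟨fun a s => by cases s <;> simp [h1], h2⟩
  · rintro ⟨h1, h2⟩
    exact ⟨fun a => (h1 a false).symm, h2⟩

lemma bij : ∀ m b : ZMod 7, m ≠ 0 → Function.Bijective fun a : ZMod 7 => m * a + b := by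
  decide +kernel

lemma W_inv (σ : Equiv.Perm V) (hσ : σ ∈ Sig) (x : V → ℝ) (hx : x ∈ W) : x ∘ σ.symm ∈ W := by
  obtain ⟨m, b, hm, h⟩ := Sig.inv_mem hσ
  have h' : ∀ p, σ.symm p = act m b p := h
  rw [W_iff] at hx ⊢
  have e : ∀ a s, (x ∘ σ.symm) (a, s) = x (m * a + b, true) := fun a s => by
    rw [Function.comp_apply, h']; exact hx.1 _ _
  refine ⟨fun a s => by rw [e, e], ?_⟩
  simp only [e]
  rw [← hx.2]
  exact (bij m b hm).sum_comp fun a => x (a, true)

def δ (a : ZMod 7) : V → ℝ := fun p => if p.1 = a then 6 else -1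

lemma irred (U : Submodule ℝ (V → ℝ)) (hU : U ≤ W)
    (hi : ∀ σ ∈ Sig, ∀ x ∈ U, x ∘ σ.symm ∈ U) : U = ⊥ ∨ U = W := by
  by_cases h0 : U = ⊥
  · exact Or.inl h0
  right
  have hi' : ∀ (m b : ZMod 7), m ≠ 0 → ∀ x ∈ U, x ∘ act m b ∈ U := fun m b hm x hx =>
    hi _ (Sig.inv_mem (perm_mem m b hm)) x hx
  obtain ⟨x, hx, hx0⟩ := Submodule.exists_mem_ne_zero_of_ne_bot h0
  obtain ⟨⟨b, s⟩, hb⟩ := Function.ne_iff.1 hx0
  obtain ⟨x1, x2⟩ := (W_iff x).1 (hU hx)
  have hb' : x (b, true) ≠ 0 := by rw [← x1 b s]; exact hb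
  have h1 : (∑ m ∈ Finset.univ.erase (0 : ZMod 7), x ∘ act m b) ∈ U :=
    U.sum_mem fun m hm => hi' m b (Finset.ne_of_mem_erase hm) x hx
  have h2 : (∑ m ∈ Finset.univ.erase (0 : ZMod 7), x ∘ act m b) = x (b, true) • δ 0 := by
    funext ⟨a, t⟩
    rw [Finset.sum_apply]
    have e : ∀ m, (x ∘ act m b) (a, t) = x (m * a + b, true) := fun m => x1 _ _
    simp only [e, Pi.smul_apply, δ, smul_eq_mul]
    split_ifs with ha
    · subst ha
      simp only [mul_zero, zero_add, Finset.sum_const]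
      have : (Finset.univ.erase (0 : ZMod 7)).card = 6 := by decide
      rw [this]; simp [mul_comm]
    · have h3 := Finset.add_sum_erase Finset.univ (fun m : ZMod 7 => x (m * a + b, true))
        (Finset.mem_univ 0)
      have h4 := (bij a b ha).sum_comp fun c => x (c, true)
      simp only [mul_comm a] at h4
      simp only [zero_mul, zero_add] at h3
      linarith
  have h3 : δ 0 ∈ U := by
    rw [h2] at h1
    exact (U.smul_mem_iff hb').1 h1
  have h4 : ∀ a, δ a ∈ U := by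
    intro a
    have := hi' 1 (-a) (by decide) _ h3
    have e : δ 0 ∘ act 1 (-a) = δ a := by
      funext p
      simp [δ, act, add_neg_eq_zero]
    rwa [e] at this
  refine le_antisymm hU fun y hy => ?_
  obtain ⟨y1, y2⟩ := (W_iff y).1 hy
  have e : y = ∑ a, (y (a, true) / 7) • δ a := by
    funext ⟨c, t⟩
    rw [Finset.sum_apply, y1]
    have : ∀ a, ((y (a, true) / 7) • δ a) (c, t) =
        (if c = a then y (a, true) else 0) - y (a, true) / 7 := by
      intro a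
      simp only [Pi.smul_apply, δ, smul_eq_mul]
      split_ifs <;> ring
    simp only [this, Finset.sum_sub_distrib, ← Finset.sum_div, y2]
    simp
  rw [e]
  exact U.sum_mem fun a _ => U.smul_mem _ (h4 a)

lemma δ_mem : δ 0 ∈ W := by
  refine ⟨fun a => rfl, ?_⟩
  have h : ∀ a : ZMod 7, a ≠ 0 → ∀ s, δ 0 (a, s) = -1 := fun a ha s => if_neg ha
  have h0 : δ 0 (0, true) = 6 := if_pos rfl
  rw [h0, h 1 (by decide), h 2 (by decide), h 3 (by decide), h 4 (by decide), h 5 (by decide),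
    h 6 (by decide)]
  norm_num

theorem result :
    ∃ (V : Type) (_ : Fintype V) (_ : DecidableEq V) (G : SimpleGraph V) (_ : DecidableRel G.Adj)
      (S : Subgroup (Equiv.Perm V)) (W : Submodule ℝ (V → ℝ)),
      G.Connected ∧
      (∀ σ ∈ S, ∀ p q, G.Adj (σ p) (σ q) ↔ G.Adj p q) ∧
      (∀ p q p' q', G.Adj p q → G.Adj p' q' → ∃ σ ∈ S, σ p = p' ∧ σ q = q') ∧
      W ≠ ⊥ ∧ (∀ σ ∈ S, ∀ x ∈ W, x ∘ σ.symm ∈ W) ∧
      (∀ U : Submodule ℝ (V → ℝ), U ≤ W → (∀ σ ∈ S, ∀ x ∈ U, x ∘ σ.symm ∈ U) → U = ⊥ ∨ U = W) ∧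
      ¬ ∃ c : ℝ, ∀ x ∈ W, (G.adjMatrix ℝ).mulVec x = c • x := by
  refine ⟨V, inferInstance, inferInstance, G, inferInstance, Sig, W, by decide +kernel, ?_, ?_, ?_,
    W_inv, irred, ?_⟩
  · rintro σ ⟨m, b, hm, h⟩ p q
    rw [h, h]; exact act_adj m b hm p q
  · intro p q p' q' h h'
    obtain ⟨m, b, hm, h1, h2⟩ := arc p q h
    obtain ⟨m', b', hm', h1', h2'⟩ := arc p' q' h'
    refine ⟨perm m' b' hm' * (perm m b hm)⁻¹,
      Sig.mul_mem (perm_mem _ _ _) (Sig.inv_mem (perm_mem _ _ _)), ?_, ?_⟩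
    · have : (perm m b hm)⁻¹ p = (0, true) := by rw [Equiv.Perm.inv_eq_iff_eq]; exact h1.symm
      rw [Equiv.Perm.mul_apply, this]; exact h1'
    · have : (perm m b hm)⁻¹ q = (1, false) := by rw [Equiv.Perm.inv_eq_iff_eq]; exact h2.symm
      rw [Equiv.Perm.mul_apply, this]; exact h2'
  · intro h
    have := δ_mem
    rw [h, Submodule.mem_bot] at this
    have h2 := congrFun this (0, true)
    simp [δ] at h2
  · rintro ⟨c, hc⟩
    have h1 := congrFun (hc _ δ_mem) (1, true)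
    have h2 := congrFun (hc _ δ_mem) (1, false)
    rw [SimpleGraph.adjMatrix_mulVec_apply] at h1 h2
    have n1 : G.neighborFinset (1, true) = {(2, false), (3, false), (5, false)} := by
      decide +kernel
    have n2 : G.neighborFinset (1, false) = {(0, true), (6, true), (4, true)} := by
      decide +kernel
    have h : ∀ a : ZMod 7, a ≠ 0 → ∀ s, δ 0 (a, s) = -1 := fun a ha s => if_neg ha
    have h0 : δ 0 (0, true) = 6 := if_pos rfl
    rw [n1, Finset.sum_insert (by decide), Finset.sum_pair (by decide), Pi.smul_apply,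
      h 2 (by decide), h 3 (by decide), h 5 (by decide), h 1 (by decide)] at h1
    rw [n2, Finset.sum_insert (by decide), Finset.sum_pair (by decide), Pi.smul_apply,
      h0, h 6 (by decide), h 4 (by decide), h 1 (by decide)] at h2
    linarith

end Pool.Agent.Results.MP_63f2bb_co.Heawood
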